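import Pool.Agent.N563.LSP.Stm
import Pool.Agent.TH228.LS_T4

set_option autoImplicit false

/-! # LSP/TPP: the bound in several variables for `p > 4` (helper952 for the project LSP of
helper563; adapted from `Pool.Agent.TH228.LS_T4`) -/

open MeasureTheory Set
open scoped ENNReal

namespace Pool.Agent.N952.LSP

open Pool.Agent.TH280.LS
open Pool.Agent.N563.LSP (S_EM S_ONEP S_TPP)
open Pool.Agent.TH228.T4 (ft_meas ra_meas H_meas gauss_int H_bound ae_pos mc_meas ms_meas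
  mc_bound ms_bound)

/-- the general form -/
theorem main {m : ℕ} (hm : 0 < m) (p : ℝ) {C4 C1 : ℝ} (hC4 : 0 < C4)
    (hE4 : ∀ (H : (Fin m → ℝ) → ℂ), Integrable H →
      ∫⁻ y : Fin m → ℝ, ‖∫ η : Fin m → ℝ, e (∑ i, y i * η i) * H η‖ₑ ^ p ≤
      ENNReal.ofReal (C4 ^ m) * ∫⁻ η : Fin m → ℝ, ENNReal.ofReal ((∏ i, |η i|) ^ (p - 2)) * ‖H η‖ₑ ^ p)
    {M : ℝ → ℝ → ℝ} (hM : Measurable (Function.uncurry M)) {K κ : ℝ} (hκ : 0 < κ)
    (hMb : ∀ t ∈ Icc (1 : ℝ) 2, ∀ r, |M t r| ≤ K * Real.exp (-(κ * r ^ 2)))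
    (hone : ∀ (a : ℝ) (G : ℝ → ℂ), 0 < a → Integrable G →
      ∫⁻ t in Icc (1 : ℝ) 2, ∫⁻ x : ℝ, ‖Ux a (M t) G x‖ₑ ^ p ≤
        ENNReal.ofReal C1 * ∫⁻ x : ℝ, ‖G x‖ₑ ^ p)
    {G : (Fin m → ℝ) → ℝ → ℂ} (hG : Adm m G) :
    ∫⁻ t in Icc (1 : ℝ) 2, ∫⁻ x : ℝ, ∫⁻ y : Fin m → ℝ, ‖Tm m (M t) G y x‖ₑ ^ p ≤
      ENNReal.ofReal (C4 ^ m * C1) * ∫⁻ x : ℝ, ∫⁻ η : Fin m → ℝ,
        ENNReal.ofReal ((∏ i, |η i|) ^ (p - 2)) * ‖G η x‖ₑ ^ p := by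
  obtain ⟨hGm, g, hg, hGg⟩ := hG
  obtain ⟨H, hH⟩ : ∃ H : ℝ → ℝ → (Fin m → ℝ) → ℂ, ∀ t x η, H t x η =
      Ux (Real.sqrt (∑ i, η i ^ 2)) (M t) (G η) x := ⟨_, fun _ _ _ => rfl⟩
  obtain ⟨w, hw⟩ : ∃ w : (Fin m → ℝ) → ℝ≥0∞, ∀ η, w η = ENNReal.ofReal ((∏ i, |η i|) ^ (p - 2)) :=
    ⟨_, fun _ => rfl⟩
  have hHm : StronglyMeasurable (fun P : ℝ × ℝ × (Fin m → ℝ) => H P.1 P.2.1 P.2.2) := by
    have h := H_meas hGm hM
    simp only [← hH] at h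
    exact h
  have hwm : Measurable w := by
    have h : w = fun η => ENNReal.ofReal ((∏ i, |η i|) ^ (p - 2)) := funext hw
    rw [h]
    refine ENNReal.measurable_ofReal.comp ?_
    fun_prop
  have hw_top : ∀ η, w η ≠ ⊤ := fun η => by rw [hw]; exact ENNReal.ofReal_ne_top
  obtain ⟨N, hN⟩ : ∃ N : ℝ → ℝ → (Fin m → ℝ) → ℝ≥0∞, ∀ t x η, N t x η = ‖H t x η‖ₑ ^ p :=
    ⟨_, fun _ _ _ => rfl⟩
  have hHe : Measurable (fun P : ℝ × ℝ × (Fin m → ℝ) => N P.1 P.2.1 P.2.2) := by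
    simp only [hN]
    exact hHm.measurable.enorm.pow_const p
  simp only [← hw]
  -- step 1: E4 at fixed `t`, `x`
  have h1 : ∀ t ∈ Icc (1 : ℝ) 2, ∀ x : ℝ, ∫⁻ y : Fin m → ℝ, ‖Tm m (M t) G y x‖ₑ ^ p ≤
      ENNReal.ofReal (C4 ^ m) * ∫⁻ η : Fin m → ℝ, w η * N t x η := by
    intro t ht x
    have hk : Integrable (fun η => H t x η) := ?_
    · have h := hE4 (fun η => H t x η) hk
      simp only [hH, ← hw] at h
      simp only [hN, hH]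
      exact h
    refine Integrable.mono' ((gauss_int (m := m) hκ).const_mul
      (K * (∫ z, g z) * ∫ ξ : ℝ, Real.exp (-κ * ξ ^ 2))) ?_ ?_
    · refine (hHm.comp_measurable
        (by fun_prop : Measurable fun η : Fin m → ℝ => ((t, x, η) : ℝ × ℝ × (Fin m → ℝ)))).aestronglyMeasurable
    · refine Filter.Eventually.of_forall fun η => ?_
      rw [hH]
      exact H_bound hg hGg hκ (hMb t ht) x η
  -- step 2: integrate
  have h2 : ∫⁻ t in Icc (1 : ℝ) 2, ∫⁻ x : ℝ, ∫⁻ y : Fin m → ℝ, ‖Tm m (M t) G y x‖ₑ ^ p ≤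
      ENNReal.ofReal (C4 ^ m) * ∫⁻ t in Icc (1 : ℝ) 2, ∫⁻ x : ℝ, ∫⁻ η : Fin m → ℝ,
        w η * N t x η := by
    rw [← lintegral_const_mul' _ _ ENNReal.ofReal_ne_top]
    refine setLIntegral_mono' measurableSet_Icc ?_
    intro t ht
    rw [← lintegral_const_mul' _ _ ENNReal.ofReal_ne_top]
    exact lintegral_mono fun x => h1 t ht x
  refine le_trans h2 ?_
  have h3 : ∫⁻ t in Icc (1 : ℝ) 2, ∫⁻ x : ℝ, ∫⁻ η : Fin m → ℝ, w η * N t x η =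
      ∫⁻ η : Fin m → ℝ, w η * ∫⁻ t in Icc (1 : ℝ) 2, ∫⁻ x : ℝ, N t x η := by
    have e1 : ∀ t : ℝ, ∫⁻ x : ℝ, ∫⁻ η : Fin m → ℝ, w η * N t x η =
        ∫⁻ η : Fin m → ℝ, w η * ∫⁻ x : ℝ, N t x η := by
      intro t
      have hm1 : Measurable (fun P : ℝ × (Fin m → ℝ) => N t P.1 P.2) :=
        hHe.comp (by fun_prop : Measurable fun P : ℝ × (Fin m → ℝ) =>
          ((t, P.1, P.2) : ℝ × ℝ × (Fin m → ℝ)))
      have hm2 : Measurable (fun P : ℝ × (Fin m → ℝ) => w P.2 * N t P.1 P.2) :=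
        (hwm.comp measurable_snd).mul hm1
      have hm3 : AEMeasurable (Function.uncurry (fun (x : ℝ) (η : Fin m → ℝ) => w η * N t x η))
          ((volume : Measure ℝ).prod (volume : Measure (Fin m → ℝ))) := hm2.aemeasurable
      rw [lintegral_lintegral_swap hm3]
      refine lintegral_congr fun η => ?_
      rw [lintegral_const_mul' _ _ (hw_top η)]
    have hm4 : Measurable (fun q : (ℝ × (Fin m → ℝ)) × ℝ => N q.1.1 q.2 q.1.2) :=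
      hHe.comp (by fun_prop : Measurable fun q : (ℝ × (Fin m → ℝ)) × ℝ =>
        ((q.1.1, q.2, q.1.2) : ℝ × ℝ × (Fin m → ℝ)))
    have hm5 : Measurable (fun P : ℝ × (Fin m → ℝ) => ∫⁻ x : ℝ, N P.1 x P.2) :=
      Measurable.lintegral_prod_right' (f := fun q : (ℝ × (Fin m → ℝ)) × ℝ => N q.1.1 q.2 q.1.2)
        hm4
    have hm6 : Measurable (fun P : ℝ × (Fin m → ℝ) => w P.2 * ∫⁻ x : ℝ, N P.1 x P.2) :=
      (hwm.comp measurable_snd).mul hm5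
    have hm7 : AEMeasurable (Function.uncurry
        (fun (t : ℝ) (η : Fin m → ℝ) => w η * ∫⁻ x : ℝ, N t x η))
        (((volume : Measure ℝ).restrict (Icc (1 : ℝ) 2)).prod (volume : Measure (Fin m → ℝ))) :=
      hm6.aemeasurable
    rw [lintegral_congr e1, lintegral_lintegral_swap hm7]
    refine lintegral_congr fun η => ?_
    rw [lintegral_const_mul' _ _ (hw_top η)]
  rw [h3]
  have h4 : ∫⁻ η : Fin m → ℝ, w η * ∫⁻ t in Icc (1 : ℝ) 2, ∫⁻ x : ℝ, N t x η ≤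
      ENNReal.ofReal C1 * ∫⁻ η : Fin m → ℝ, w η * ∫⁻ x : ℝ, ‖G η x‖ₑ ^ p := by
    rw [← lintegral_const_mul' _ _ ENNReal.ofReal_ne_top]
    refine lintegral_mono_ae ?_
    filter_upwards [ae_pos hm] with η hη
    have hGi : Integrable (G η) := by
      refine Integrable.mono' hg ?_ (Filter.Eventually.of_forall fun x => hGg η x)
      exact (hGm.comp (by fun_prop : Measurable fun x : ℝ =>
        ((η, x) : (Fin m → ℝ) × ℝ))).aestronglyMeasurable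
    have h := hone _ (G η) hη hGi
    have h' : ∫⁻ t in Icc (1 : ℝ) 2, ∫⁻ x : ℝ, N t x η ≤
        ENNReal.ofReal C1 * ∫⁻ x : ℝ, ‖G η x‖ₑ ^ p := by
      simp only [hN, hH]
      exact h
    calc w η * ∫⁻ t in Icc (1 : ℝ) 2, ∫⁻ x : ℝ, N t x η
        ≤ w η * (ENNReal.ofReal C1 * ∫⁻ x : ℝ, ‖G η x‖ₑ ^ p) := mul_le_mul_right h' _
      _ = ENNReal.ofReal C1 * (w η * ∫⁻ x : ℝ, ‖G η x‖ₑ ^ p) := by ring
  have h5 : ∫⁻ η : Fin m → ℝ, w η * ∫⁻ x : ℝ, ‖G η x‖ₑ ^ p =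
      ∫⁻ x : ℝ, ∫⁻ η : Fin m → ℝ, w η * ‖G η x‖ₑ ^ p := by
    have hm1 : Measurable (fun P : ℝ × (Fin m → ℝ) => ‖G P.2 P.1‖ₑ ^ p) :=
      (hGm.comp (by fun_prop : Measurable fun P : ℝ × (Fin m → ℝ) => (P.2, P.1))).enorm.pow_const p
    have hm2 : Measurable (fun P : ℝ × (Fin m → ℝ) => w P.2 * ‖G P.2 P.1‖ₑ ^ p) :=
      (hwm.comp measurable_snd).mul hm1
    have hm3 : AEMeasurable (Function.uncurry (fun (x : ℝ) (η : Fin m → ℝ) => w η * ‖G η x‖ₑ ^ p))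
        ((volume : Measure ℝ).prod (volume : Measure (Fin m → ℝ))) := hm2.aemeasurable
    rw [lintegral_lintegral_swap hm3]
    refine lintegral_congr fun η => ?_
    rw [lintegral_const_mul' _ _ (hw_top η)]
  calc ENNReal.ofReal (C4 ^ m) * ∫⁻ η : Fin m → ℝ, w η *
        ∫⁻ t in Icc (1 : ℝ) 2, ∫⁻ x : ℝ, N t x η
      ≤ ENNReal.ofReal (C4 ^ m) * (ENNReal.ofReal C1 *
        ∫⁻ η : Fin m → ℝ, w η * ∫⁻ x : ℝ, ‖G η x‖ₑ ^ p) := mul_le_mul_right h4 _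
    _ = ENNReal.ofReal (C4 ^ m * C1) * ∫⁻ x : ℝ, ∫⁻ η : Fin m → ℝ, w η * ‖G η x‖ₑ ^ p := by
        rw [h5, ← mul_assoc, ENNReal.ofReal_mul (by positivity)]

theorem tpp_ (h1 : S_EM) (h2 : S_ONEP) : S_TPP := by
  intro m s p hm hp hs
  have hp2 : 2 < p := by linarith
  have hs0 : 0 < s := by
    have h3 : 2 / p < 1 / 2 := by
      rw [div_lt_div_iff₀ (by linarith) (by norm_num)]
      linarith
    linarith
  obtain ⟨C4, hC4, hE4⟩ := h1 p hp2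
  obtain ⟨C1, hC1, hone⟩ := h2 p s hp hs
  refine ⟨C4 ^ m * C1, by positivity, ?_⟩
  intro τ G hτ hτ1 hG
  refine ⟨?_, ?_⟩
  · exact main hm p hC4 (hE4 m) (mc_meas s τ) hτ (fun t _ r => mc_bound hs0 t r)
      (fun a G' ha hG' => (hone a τ G' ha hτ hτ1 hG').1) hG
  · exact main hm p hC4 (hE4 m) (ms_meas s τ) (half_pos hτ)
      (fun t ht r => ms_bound hs0 hτ t r ht)
      (fun a G' ha hG' => (hone a τ G' ha hτ hτ1 hG').2) hG

end Pool.Agent.N952.LSP
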